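import Pool.Agent.H51MS.Two
import Pool.Agent.H69N.LA.Uni

/-!
# The derivatives of the critical orbits, Newton steps, and the distance to capture

Let `T` be an arbitrary polynomial of degree at least two, `J` its Julia set, `z n = T ^ n (c)` the orbit of
a critical point `c`, and `D n` the derivative of `(T + s) ^ n (c)` with respect to `s` at `s = 0`. The
distance from `T`, among the translates `T + s`, to the polynomials with a captured critical point (one
which escapes or is attracted by a sink), multiplied by `|D n|`, is at most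

* `(1 / π) ∫_J dA(z) / |z - z n|`, which is at most `(2 / √π) √(area J)`;
* `|z n - c| (1 / π) ∫_J dA(z) / (|z - z n| |z - c|)`, which is at most
  `|z n - c| (4 + log (1 + 4 (area J) / (π |z n - c| ^ 2)))`.

The second bound measures the distance to capture by the length of a step of Newton's method for the
equation `(T + s) ^ n (c) = c` of the superattracting centres: if `|z n - c| / |D n|` is small for some
`n`, then there is a captured critical point nearby.
-/

set_option autoImplicit false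

open Filter Topology Polynomial MeasureTheory Metric

namespace Pool.Agent.Results.MP_28f8a1_an.CaptureSpeed

/-- The polynomial as a self-map of the plane. -/
def map (T : ℂ[X]) : ℂ → ℂ := fun w : ℂ => T.eval w

/-- The orbit of `z` escapes to infinity. -/
def Escapes (T : ℂ[X]) (z : ℂ) : Prop :=
  Tendsto (fun k : ℕ => ‖(map T)^[k] z‖) atTop atTop

/-- The orbit of `z` is attracted by a sink (attracting periodic point) of `T`. -/
def Attracted (T : ℂ[X]) (z : ℂ) : Prop :=
  ∃ n : ℕ, 0 < n ∧ ∃ x : ℂ, (map T)^[n] x = x ∧ ‖deriv ((map T)^[n]) x‖ < 1 ∧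
    Tendsto (fun k : ℕ => (map T)^[n * k] z) atTop (𝓝 x)

/-- The point `z` belongs to the basin of a parabolic cycle of `T`. -/
def InParabolicBasin (T : ℂ[X]) (z : ℂ) : Prop :=
  ∃ (n : ℕ) (x : ℂ), 0 < n ∧ (map T)^[n] x = x ∧ deriv ((map T)^[n]) x = 1 ∧
    Tendsto (fun k : ℕ => (map T)^[n * k] z) atTop (𝓝 x) ∧ ∀ k : ℕ, (map T)^[n * k] z ≠ x

/-- The point `z` is mapped by an iterate of `T` into a disc on which an iterate of `T` is
conjugate to an irrational rotation (a Siegel disc). -/
def InSiegelDisc (T : ℂ[X]) (z : ℂ) : Prop :=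
  ∃ (m n : ℕ) (r : ℝ) (h : ℂ → ℂ) (ρ : ℂ), 0 < n ∧ 0 < r ∧ ‖ρ‖ = 1 ∧
    (∀ k : ℕ, 0 < k → ρ ^ k ≠ 1) ∧ DifferentiableOn ℂ h (ball 0 r) ∧ Set.InjOn h (ball 0 r) ∧
    (∀ w ∈ ball (0 : ℂ) r, (map T)^[n] (h w) = h (ρ * w)) ∧ (map T)^[m] z ∈ h '' ball 0 r

/-- The points which are in none of the basins and not mapped into a Siegel disc. By Sullivan's
theorem and the classification of periodic Fatou components this is the Julia set of `T`. -/
def Js (T : ℂ[X]) : Set ℂ :=
  {z : ℂ | ¬ (Escapes T z ∨ Attracted T z ∨ InParabolicBasin T z ∨ InSiegelDisc T z)}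

/-- `(1 / π) ∫ dA(z) / |z - a|` over the set `E`. -/
noncomputable def pot (E : Set ℂ) (a : ℂ) : ℝ := 1 / Real.pi * ∫ z in E, ‖z - a‖⁻¹

/-- `(2 / √π)` times the square root of the area of `E`. -/
noncomputable def rootArea (E : Set ℂ) : ℝ := 2 / √Real.pi * √((volume E).toReal)

/-- The derivative at `s = 0` of `(T + s)^n (c)`. -/
noncomputable def D (T : ℂ[X]) (c : ℂ) (n : ℕ) : ℂ :=
  deriv (fun s : ℂ => (map (T + C s))^[n] c) 0

/-- `|a - b| (1 / π) ∫ dA(z) / (|z - a| |z - b|)` over the set `E`. -/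
noncomputable def step (E : Set ℂ) (a b : ℂ) : ℝ :=
  ‖a - b‖ * (1 / Real.pi * ∫ z in E, (‖z - a‖ * ‖z - b‖)⁻¹)

/-- `|a - b| (4 + log (1 + 4 (area of E) / (π |a - b| ^ 2)))`. -/
noncomputable def stepArea (E : Set ℂ) (a b : ℂ) : ℝ :=
  ‖a - b‖ * (4 + Real.log (1 + 4 * (volume E).toReal / (Real.pi * ‖a - b‖ ^ 2)))

/-- `B` is one of the four bounds for the critical point `c` and the exponent `n`. -/
def IsBound (T : ℂ[X]) (c : ℂ) (n : ℕ) (B : ℝ) : Prop :=
  B = pot (Js T) ((map T)^[n] c) ∨ B = rootArea (Js T) ∨ B = step (Js T) ((map T)^[n] c) c ∨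
    B = stepArea (Js T) ((map T)^[n] c) c

theorem Js_eq (T : ℂ[X]) : Js T = Pool.Agent.H713R5.QJ.JS T := by
  ext z
  have : (Pool.Agent.H713R5.QJ.Good (Pool.Agent.H713R5.QJ.ev T) z ∨
      Pool.Agent.H713R5.QJ.Para (Pool.Agent.H713R5.QJ.ev T) z ∨
      Pool.Agent.H713R5.QJ.Sieg (Pool.Agent.H713R5.QJ.ev T) z) ↔
      (Escapes T z ∨ Attracted T z ∨ InParabolicBasin T z ∨ InSiegelDisc T z) :=
    or_assoc
  exact (not_congr this).symm

/-- (1) Holomorphic discs `T + g t` without captured critical points move slowly: the derivative of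
`g` times the derivative of any point of a critical orbit of `T` is bounded by the potential at this
point of the Julia set of `T`, by `(2 / √π)` times the square root of its area, by the integral for two
points, and by the explicit bound for it. (2) Hence the distance from `T` to the translates with a
captured critical point. -/
theorem result (T : ℂ[X]) (hT : 2 ≤ T.natDegree) :
    (∀ g : ℂ → ℂ, DifferentiableOn ℂ g (ball 0 1) → g 0 = 0 →
      (∀ t ∈ ball (0 : ℂ) 1, ∀ c : ℂ, (derivative T).eval c = 0 →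
        ¬ (Escapes (T + C (g t)) c ∨ Attracted (T + C (g t)) c)) →
      ∀ c : ℂ, (derivative T).eval c = 0 → ∀ (n : ℕ) (B : ℝ), IsBound T c n B →
        ‖D T c n‖ * ‖deriv g 0‖ ≤ B) ∧
    (∀ c : ℂ, (derivative T).eval c = 0 → ∀ (n : ℕ) (B ε : ℝ), IsBound T c n B → 0 < ε →
      B < ‖D T c n‖ * ε → ∃ s : ℂ, ‖s‖ < ε ∧ ∃ c' : ℂ, (derivative T).eval c' = 0 ∧
        (Escapes (T + C s) c' ∨ Attracted (T + C s) c')) ∧
    (∀ ε : ℝ, rootArea (Js T) < ε → ∃ s : ℂ, ‖s‖ < ε ∧ ∃ c : ℂ, (derivative T).eval c = 0 ∧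
        (Escapes (T + C s) c ∨ Attracted (T + C s) c)) := by
  have hpi := Real.pi_pos
  have h1 : ∀ g : ℂ → ℂ, DifferentiableOn ℂ g (ball 0 1) → g 0 = 0 →
      (∀ t ∈ ball (0 : ℂ) 1, ∀ c : ℂ, (derivative T).eval c = 0 →
        ¬ (Escapes (T + C (g t)) c ∨ Attracted (T + C (g t)) c)) →
      ∀ c : ℂ, (derivative T).eval c = 0 → ∀ (n : ℕ) (B : ℝ), IsBound T c n B →
        ‖D T c n‖ * ‖deriv g 0‖ ≤ B := by
    intro g hg hg0 hbad c hc n B hB
    have hpot0 : 0 ≤ pot (Js T) ((map T)^[n] c) := by
      unfold pot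
      have : 0 ≤ ∫ z in Js T, ‖z - (map T)^[n] c‖⁻¹ := integral_nonneg fun z => by positivity
      positivity
    have hroot0 : 0 ≤ rootArea (Js T) := by
      unfold rootArea
      positivity
    have hstep0 : 0 ≤ step (Js T) ((map T)^[n] c) c := by
      unfold step
      have : 0 ≤ ∫ z in Js T, (‖z - (map T)^[n] c‖ * ‖z - c‖)⁻¹ :=
        integral_nonneg fun z => by positivity
      positivity
    have hsa0 : 0 ≤ stepArea (Js T) ((map T)^[n] c) c := by
      unfold stepArea
      have h2 : 0 ≤ 4 * (volume (Js T)).toReal / (Real.pi * ‖(map T)^[n] c - c‖ ^ 2) := by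
        positivity
      have h3 : 0 ≤ Real.log (1 + 4 * (volume (Js T)).toReal /
          (Real.pi * ‖(map T)^[n] c - c‖ ^ 2)) := Real.log_nonneg (by linarith)
      positivity
    rcases Pool.Agent.H46FS.translation_speed T hT hg hg0 hbad hc n with h | ⟨hKJ, h⟩
    · rw [h, norm_zero, mul_zero]
      rcases hB with h | h | h | h
      · rw [h]; exact hpot0
      · rw [h]; exact hroot0
      · rw [h]; exact hstep0
      · rw [h]; exact hsa0
    · have hJc : IsCompact (Js T) := by
        rw [Js_eq, ← hKJ]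
        exact Pool.Agent.H46FS.isCompact_KJ T hT
      have h2 : ‖D T c n‖ * ‖deriv g 0‖ ≤ pot (Js T) ((map T)^[n] c) := by
        have h3 : Real.pi * (‖D T c n‖ * ‖deriv g 0‖) ≤
            2 * (volume (Pool.Agent.H46MB.SQ ((map T)^[n] c) (Js T))).toReal := by
          rw [Js_eq]; exact h
        rw [Pool.Agent.H46MB.vol_SQ_toReal _ hJc.isClosed.measurableSet] at h3
        unfold pot
        rw [one_div, inv_mul_eq_div, le_div_iff₀ hpi]
        linarith
      have h4 : ‖D T c n‖ * ‖deriv g 0‖ ≤ step (Js T) ((map T)^[n] c) c := by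
        have h3 := Pool.Agent.H51MS.translation_two T hT hg hg0 hbad hc n
        unfold step
        rw [Js_eq, mul_left_comm, one_div, inv_mul_eq_div, le_div_iff₀ hpi, mul_comm _ Real.pi]
        exact h3
      rcases hB with h | h | h | h
      · rw [h]; exact h2
      · rw [h]; exact h2.trans (Pool.Agent.H46FS.pot_le' hJc _)
      · rw [h]; exact h4
      · rw [h]
        refine h4.trans ?_
        unfold step stepArea
        by_cases hz : (map T)^[n] c = c
        · rw [hz, sub_self, norm_zero, zero_mul, zero_mul]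
        · exact mul_le_mul_of_nonneg_left (Pool.Agent.H51MS.kernel_bound hJc hz) (norm_nonneg _)
  have h2 : ∀ c : ℂ, (derivative T).eval c = 0 → ∀ (n : ℕ) (B ε : ℝ), IsBound T c n B → 0 < ε →
      B < ‖D T c n‖ * ε → ∃ s : ℂ, ‖s‖ < ε ∧ ∃ c' : ℂ, (derivative T).eval c' = 0 ∧
        (Escapes (T + C s) c' ∨ Attracted (T + C s) c') := by
    intro c hc n B ε hB hε hlt
    by_contra hcon
    push Not at hcon
    have hder : deriv (fun s : ℂ => (ε : ℂ) * s) 0 = ε := by
      rw [deriv_const_mul_field, deriv_id'', mul_one]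
    have h3 := h1 (fun s => (ε : ℂ) * s) (by fun_prop) (by simp) (by
      intro t ht c' hc' h
      have h4 : ‖(ε : ℂ) * t‖ < ε := by
        rw [norm_mul, Complex.norm_real, Real.norm_of_nonneg hε.le]
        have := mem_ball_zero_iff.mp ht
        calc ε * ‖t‖ < ε * 1 := mul_lt_mul_of_pos_left this hε
          _ = ε := mul_one ε
      rcases h with h | h
      · exact (hcon _ h4 c' hc').1 h
      · exact (hcon _ h4 c' hc').2 h) c hc n B hB
    rw [hder, Complex.norm_real, Real.norm_of_nonneg hε.le] at h3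
    exact absurd h3 (not_le.mpr hlt)
  refine ⟨h1, h2, ?_⟩
  intro ε hε
  have hroot : 0 ≤ rootArea (Js T) := by unfold rootArea; positivity
  have hε0 : 0 < ε := lt_of_le_of_lt hroot hε
  -- a critical point
  obtain ⟨c, hc⟩ : ∃ c : ℂ, (derivative T).eval c = 0 := by
    apply IsAlgClosed.exists_root
    rw [degree_derivative (by omega)]
    have : 0 < T.natDegree - 1 := by omega
    exact_mod_cast this.ne'
  apply h2 c hc 1 _ ε (Or.inr (Or.inl rfl)) hε0
  have hD : D T c 1 = 1 := by
    unfold D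
    have h1 : (fun s : ℂ => (map (T + C s))^[1] c) = fun s => T.eval c + s := by
      funext s
      simp [map]
    rw [h1, deriv_const_add, deriv_id'']
  rw [hD, norm_one, one_mul]
  exact hε

end Pool.Agent.Results.MP_28f8a1_an.CaptureSpeed
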