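import Pool.Agent.H69N.LA.Uni

set_option autoImplicit false

open Filter Topology Polynomial MeasureTheory Metric

namespace Pool.Agent.Results.MP_28f8a1_an.LinearAreaBound

/-- The polynomial as a self-map of the plane. -/
def map (T : ℂ[X]) : ℂ → ℂ := fun w : ℂ => T.eval w

/-- The orbit of `z` escapes to infinity. -/
def Escapes (T : ℂ[X]) (z : ℂ) : Prop :=
  Tendsto (fun k : ℕ => ‖(map T)^[k] z‖) atTop atTop

/-- The orbit of `z` is attracted by a sink (attracting periodic point) of `T`. -/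
def Attracted (T : ℂ[X]) (z : ℂ) : Prop :=
  ∃ n : ℕ, 0 < n ∧ ∃ x : ℂ, (map T)^[n] x = x ∧ ‖deriv ((map T)^[n]) x‖ < 1 ∧
    Tendsto (fun k : ℕ => (map T)^[n * k] z) atTop (𝓝 x)

/-- The point `z` belongs to the basin of a parabolic cycle of `T`. -/
def InParabolicBasin (T : ℂ[X]) (z : ℂ) : Prop :=
  ∃ (n : ℕ) (x : ℂ), 0 < n ∧ (map T)^[n] x = x ∧ deriv ((map T)^[n]) x = 1 ∧
    Tendsto (fun k : ℕ => (map T)^[n * k] z) atTop (𝓝 x) ∧ ∀ k : ℕ, (map T)^[n * k] z ≠ x

/-- The point `z` is mapped by an iterate of `T` into a disc on which an iterate of `T` is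
conjugate to an irrational rotation (a Siegel disc). -/
def InSiegelDisc (T : ℂ[X]) (z : ℂ) : Prop :=
  ∃ (m n : ℕ) (r : ℝ) (h : ℂ → ℂ) (ρ : ℂ), 0 < n ∧ 0 < r ∧ ‖ρ‖ = 1 ∧
    (∀ k : ℕ, 0 < k → ρ ^ k ≠ 1) ∧ DifferentiableOn ℂ h (ball 0 r) ∧ Set.InjOn h (ball 0 r) ∧
    (∀ w ∈ ball (0 : ℂ) r, (map T)^[n] (h w) = h (ρ * w)) ∧ (map T)^[m] z ∈ h '' ball 0 r

/-- The points which are in none of the basins and not mapped into a Siegel disc. By Sullivan's
theorem and the classification of periodic Fatou components this is the Julia set of `T`. -/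
def Js (T : ℂ[X]) : Set ℂ :=
  {z : ℂ | ¬ (Escapes T z ∨ Attracted T z ∨ InParabolicBasin T z ∨ InSiegelDisc T z)}

theorem Js_eq (T : ℂ[X]) : Js T = Pool.Agent.H713R5.QJ.JS T := by
  ext z
  have : (Pool.Agent.H713R5.QJ.Good (Pool.Agent.H713R5.QJ.ev T) z ∨
      Pool.Agent.H713R5.QJ.Para (Pool.Agent.H713R5.QJ.ev T) z ∨
      Pool.Agent.H713R5.QJ.Sieg (Pool.Agent.H713R5.QJ.ev T) z) ↔
      (Escapes T z ∨ Attracted T z ∨ InParabolicBasin T z ∨ InSiegelDisc T z) :=
    or_assoc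
  exact (not_congr this).symm

/-- Translations of a polynomial `T` of degree `d ≥ 2` with leading coefficient `a`: if `g` is
holomorphic in the unit disc, `g 0 = 0`, and no critical point of any `T + g t` escapes or is attracted
by a sink, then `π ‖g' 0‖` is at most `d ‖a‖` times the square root of
`area (Js T) * ∫_{Js T} ‖z‖ ^ (2 (d - 2))`. If `Js T` lies in the disc of radius `R` then for every `ε`
larger than `d ‖a‖ R ^ (d - 2) / π * area (Js T)` there is `t` with `‖t‖ < ε` such that some critical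
point of `T + t` escapes or is attracted by a sink. -/
theorem result :
    ∀ T : ℂ[X], 2 ≤ T.natDegree → volume (Js T) < ⊤ ∧
      (∀ g : ℂ → ℂ, DifferentiableOn ℂ g (ball 0 1) → g 0 = 0 →
        (∀ t ∈ ball (0 : ℂ) 1, ∀ c : ℂ, (derivative T).eval c = 0 →
          ¬ (Escapes (T + C (g t)) c ∨ Attracted (T + C (g t)) c)) →
        (Real.pi * ‖deriv g 0‖) ^ 2 ≤ (T.natDegree * ‖T.leadingCoeff‖) ^ 2 *
          ((volume (Js T)).toReal * ∫ z in Js T, ‖z‖ ^ (2 * (T.natDegree - 2)))) ∧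
      ∀ R : ℝ, 0 ≤ R → (∀ z ∈ Js T, ‖z‖ ≤ R) → ∀ ε : ℝ,
        T.natDegree * ‖T.leadingCoeff‖ * R ^ (T.natDegree - 2) / Real.pi *
          (volume (Js T)).toReal < ε →
        ∃ t : ℂ, ‖t‖ < ε ∧ ∃ c : ℂ, (derivative T).eval c = 0 ∧
          (Escapes (T + C t) c ∨ Attracted (T + C t) c) := by
  have hpi := Real.pi_pos
  intro T hT
  have hfin : volume (Js T) < ⊤ := by
    rw [Js_eq]
    exact Pool.Agent.H69N.LA.JS_fin T hT
  have h1 : ∀ g : ℂ → ℂ, DifferentiableOn ℂ g (ball 0 1) → g 0 = 0 →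
      (∀ t ∈ ball (0 : ℂ) 1, ∀ c : ℂ, (derivative T).eval c = 0 →
        ¬ (Escapes (T + C (g t)) c ∨ Attracted (T + C (g t)) c)) →
      (Real.pi * ‖deriv g 0‖) ^ 2 ≤ (T.natDegree * ‖T.leadingCoeff‖) ^ 2 *
        ((volume (Js T)).toReal * ∫ z in Js T, ‖z‖ ^ (2 * (T.natDegree - 2))) := by
    intro g hg hg0 hc
    obtain ⟨-, h1⟩ := Pool.Agent.H69N.LA.translation_bound T hT hg hg0
      (fun s hs c hcc h => hc s hs c hcc h)
    rw [← Js_eq] at h1
    exact h1
  refine ⟨hfin, h1, fun R hR hJR ε hε => ?_⟩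
  have hε0 : 0 < ε := lt_of_le_of_lt (by positivity) hε
  by_contra hcon
  push Not at hcon
  have hg : DifferentiableOn ℂ (fun s : ℂ => (ε : ℂ) * s) (ball 0 1) := by fun_prop
  have h2 := h1 _ hg (by simp) (by
    intro t ht c hc h
    have h3 : ‖(ε : ℂ) * t‖ < ε := by
      rw [norm_mul, Complex.norm_real, Real.norm_of_nonneg hε0.le]
      have := mem_ball_zero_iff.mp ht
      calc ε * ‖t‖ < ε * 1 := mul_lt_mul_of_pos_left this hε0
        _ = ε := mul_one ε
    obtain ⟨h4, h5⟩ := hcon _ h3 c hc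
    rcases h with h | h
    · exact h4 h
    · exact h5 h)
  have hder : deriv (fun s : ℂ => (ε : ℂ) * s) 0 = ε := by
    rw [deriv_const_mul_field, deriv_id'', mul_one]
  rw [hder, Complex.norm_real, Real.norm_of_nonneg hε0.le] at h2
  have h3 := Pool.Agent.H69N.LA.moment_bound hfin (by positivity) hR hJR h2
  rw [div_mul_eq_mul_div, div_lt_iff₀ hpi] at hε
  linarith

end Pool.Agent.Results.MP_28f8a1_an.LinearAreaBound
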