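import Pool.Agent.H51MS.Cap
import Pool.Agent.H69N.LA.Uni

/-!
# The speed of the points of the filled Julia sets in holomorphic families of polynomials

Along a holomorphic family of polynomials `f t`, `|t| < 1`, of degree `d` (with constant coefficients
of `z ^ d` and `z ^ (d - 1)`) in which no critical point escapes, every point of the filled Julia
set which moves holomorphically, and the whole forward orbit of this point, moves with speed at most

`(1 / π) ∫ dA(z) / |z - ζ 0| ≤ (2 / √π) √(area K)`,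

where `K` is the filled Julia set of `f 0`. In particular the derivatives of the critical orbits with
respect to the parameter are bounded by the area of the filled Julia set. The difference of two
such points which never coincide moves with speed at most

`|ζ 0 - η 0| (1 / π) ∫ dA(z) / (|z - ζ 0| |z - η 0|) ≤
|ζ 0 - η 0| (4 + log (1 + 4 (area K) / (π |ζ 0 - η 0| ^ 2)))`.
-/

set_option autoImplicit false

open Filter Topology Polynomial MeasureTheory Metric

namespace Pool.Agent.Results.MP_28f8a1_an.MotionSpeed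

/-- The polynomial as a self-map of the plane. -/
def map (T : ℂ[X]) : ℂ → ℂ := fun w : ℂ => T.eval w

/-- The orbit of `z` escapes to infinity. -/
def Escapes (T : ℂ[X]) (z : ℂ) : Prop :=
  Tendsto (fun k : ℕ => ‖(map T)^[k] z‖) atTop atTop

/-- The filled Julia set of `T`: the points which do not escape. -/
def Ks (T : ℂ[X]) : Set ℂ := {z : ℂ | ¬ Escapes T z}

/-- `(1 / π) ∫ dA(z) / |z - a|` over the set `E`. -/
noncomputable def pot (E : Set ℂ) (a : ℂ) : ℝ := 1 / Real.pi * ∫ z in E, ‖z - a‖⁻¹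

/-- `(2 / √π)` times the square root of the area of `E`. -/
noncomputable def rootArea (E : Set ℂ) : ℝ := 2 / √Real.pi * √((volume E).toReal)

/-- `|a - b| (1 / π) ∫ dA(z) / (|z - a| |z - b|)` over the set `E`. -/
noncomputable def step (E : Set ℂ) (a b : ℂ) : ℝ :=
  ‖a - b‖ * (1 / Real.pi * ∫ z in E, (‖z - a‖ * ‖z - b‖)⁻¹)

/-- `|a - b| (4 + log (1 + 4 (area of E) / (π |a - b| ^ 2)))`. -/
noncomputable def stepArea (E : Set ℂ) (a b : ℂ) : ℝ :=
  ‖a - b‖ * (4 + Real.log (1 + 4 * (volume E).toReal / (Real.pi * ‖a - b‖ ^ 2)))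

/-- The family `f t`, `|t| < 1`, of polynomials of degree `d` is holomorphic, the coefficients of
`z ^ d` and `z ^ (d - 1)` are constant, and no critical point escapes. -/
structure IsFamily (d : ℕ) (f : ℂ → ℂ[X]) : Prop where
  two : 2 ≤ d
  top : ∀ t ∈ ball (0 : ℂ) 1, (f t).natDegree = d ∧ (f t).leadingCoeff = (f 0).leadingCoeff ∧
    (f t).coeff (d - 1) = (f 0).coeff (d - 1)
  hol : ∀ j : ℕ, DifferentiableOn ℂ (fun t => (f t).coeff j) (ball 0 1)
  bounded : ∀ t ∈ ball (0 : ℂ) 1, ∀ c : ℂ, (derivative (f t)).eval c = 0 → ¬ Escapes (f t) c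

/-- The point `ζ t` moves holomorphically and never escapes. -/
structure IsPoint (f : ℂ → ℂ[X]) (ζ : ℂ → ℂ) : Prop where
  hol : DifferentiableOn ℂ ζ (ball 0 1)
  bounded : ∀ t ∈ ball (0 : ℂ) 1, ¬ Escapes (f t) (ζ t)

/-- (1) The speed of the holomorphically moving points of the filled Julia sets, and of all the points
of their orbits, in holomorphic families of polynomials without escaping critical points. (2) The
speed of the difference of points of two orbits which never coincide. (3) The potential is bounded by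
the square root of the area, and the integral for two points by a logarithm. -/
theorem result :
    (∀ (d : ℕ) (f : ℂ → ℂ[X]), IsFamily d f → ∀ ζ : ℂ → ℂ, IsPoint f ζ → ∀ n : ℕ,
        ‖deriv (fun t => (map (f t))^[n] (ζ t)) 0‖ ≤ pot (Ks (f 0)) ((map (f 0))^[n] (ζ 0))) ∧
    (∀ (d : ℕ) (f : ℂ → ℂ[X]), IsFamily d f → ∀ ζ η : ℂ → ℂ, IsPoint f ζ → IsPoint f η →
      ∀ n m : ℕ, (∀ t ∈ ball (0 : ℂ) 1, (map (f t))^[n] (ζ t) ≠ (map (f t))^[m] (η t)) →
        ‖deriv (fun t => (map (f t))^[n] (ζ t) - (map (f t))^[m] (η t)) 0‖ ≤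
          step (Ks (f 0)) ((map (f 0))^[n] (ζ 0)) ((map (f 0))^[m] (η 0))) ∧
    (∀ T : ℂ[X], 2 ≤ T.natDegree → ∀ a b : ℂ, pot (Ks T) a ≤ rootArea (Ks T) ∧
      step (Ks T) a b ≤ stepArea (Ks T) a b) := by
  have hpi := Real.pi_pos
  have hK : ∀ T : ℂ[X], Pool.Agent.H713R3.ZA.KJ T = Ks T := fun _ => rfl
  have hKc : ∀ T : ℂ[X], 2 ≤ T.natDegree → IsCompact (Ks T) := fun T hT => by
    rw [← hK]; exact Pool.Agent.H46FS.isCompact_KJ T hT
  have hpot : ∀ (E : Set ℂ), IsCompact E → ∀ a : ℂ, pot E a =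
      2 / Real.pi * (volume (Pool.Agent.H46MB.SQ a E)).toReal := by
    intro E hE a
    rw [Pool.Agent.H46MB.vol_SQ_toReal a hE.isClosed.measurableSet]
    unfold pot
    ring
  have h0mem : (0 : ℂ) ∈ ball (0 : ℂ) 1 := mem_ball_self one_pos
  refine ⟨?_, ?_, fun T hT a b => ⟨?_, ?_⟩⟩
  · intro d f hF ζ hζ n
    have hf := hF.top
    have hd := hF.two
    obtain ⟨m, rfl⟩ : ∃ m, d = m + 1 := ⟨d - 1, by omega⟩
    have hm : 1 ≤ m := by omega
    have hlead : ∀ t ∈ ball (0 : ℂ) 1, (f t).coeff (m + 1) = (f 0).leadingCoeff := by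
      intro t ht
      obtain ⟨e1, e2, -⟩ := hf t ht
      rw [← e2, ← coeff_natDegree, e1]
    have ha : (f 0).leadingCoeff ≠ 0 := by
      rw [leadingCoeff_ne_zero]
      intro h
      have := (hf 0 h0mem).1
      rw [h, natDegree_zero] at this
      omega
    have h1 := Pool.Agent.H46FS.family_speed hm ha (f := f) (fun t ht => (hf t ht).1.le) hlead
      (fun t ht => (hf t ht).2.2) hF.hol (fun t ht c hc => hF.bounded t ht c hc)
      (ζ := fun t => (map (f t))^[n] (ζ t))
      (Pool.Agent.H46FS.iter_hol (fun t ht => (hf t ht).1.le) hF.hol hζ.hol n)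
      (fun t ht => Pool.Agent.H46FS.KJ_iter (f t) (hζ.bounded t ht) n)
    have hT : 2 ≤ (f 0).natDegree := by rw [(hf 0 h0mem).1]; exact hd
    rw [hpot _ (hKc _ hT), div_mul_eq_mul_div, le_div_iff₀ hpi, mul_comm _ Real.pi]
    exact h1
  · intro d f hF ζ η hζ hη n k hne
    have hf := hF.top
    have hd := hF.two
    obtain ⟨m, rfl⟩ : ∃ m, d = m + 1 := ⟨d - 1, by omega⟩
    have hm : 1 ≤ m := by omega
    have hlead : ∀ t ∈ ball (0 : ℂ) 1, (f t).coeff (m + 1) = (f 0).leadingCoeff := by
      intro t ht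
      obtain ⟨e1, e2, -⟩ := hf t ht
      rw [← e2, ← coeff_natDegree, e1]
    have ha : (f 0).leadingCoeff ≠ 0 := by
      rw [leadingCoeff_ne_zero]
      intro h
      have := (hf 0 h0mem).1
      rw [h, natDegree_zero] at this
      omega
    have d1 := Pool.Agent.H46FS.iter_hol (fun t ht => (hf t ht).1.le) hF.hol hζ.hol n
    have d2 := Pool.Agent.H46FS.iter_hol (fun t ht => (hf t ht).1.le) hF.hol hη.hol k
    have h1 := Pool.Agent.H46TP.family_two hm ha (f := f) (fun t ht => (hf t ht).1.le) hlead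
      (fun t ht => (hf t ht).2.2) hF.hol (fun t ht c hc => hF.bounded t ht c hc)
      (ζ := fun t => (map (f t))^[n] (ζ t)) (η := fun t => (map (f t))^[k] (η t)) d1 d2
      (fun t ht => Pool.Agent.H46FS.KJ_iter (f t) (hζ.bounded t ht) n)
      (fun t ht => Pool.Agent.H46FS.KJ_iter (f t) (hη.bounded t ht) k) hne
    have e1 : deriv (fun t => (map (f t))^[n] (ζ t) - (map (f t))^[k] (η t)) 0 =
        deriv (fun t => (map (f t))^[n] (ζ t)) 0 - deriv (fun t => (map (f t))^[k] (η t)) 0 :=
      deriv_sub (d1.differentiableAt (isOpen_ball.mem_nhds h0mem))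
        (d2.differentiableAt (isOpen_ball.mem_nhds h0mem))
    rw [e1]
    unfold step
    rw [mul_left_comm, one_div, inv_mul_eq_div, le_div_iff₀ hpi, mul_comm _ Real.pi]
    exact h1
  · exact Pool.Agent.H46FS.pot_le' (hKc T hT) a
  · unfold step stepArea
    by_cases hz : a = b
    · rw [hz, sub_self, norm_zero, zero_mul, zero_mul]
    · exact mul_le_mul_of_nonneg_left (Pool.Agent.H51MS.kernel_bound (hKc T hT) hz) (norm_nonneg _)

end Pool.Agent.Results.MP_28f8a1_an.MotionSpeed
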