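import Pool.Agent.H51MS.Cap
import Pool.Agent.H69N.LA.Uni

/-!
# The multipliers of repelling cycles against the logarithmic density of the Julia set

Let `f t`, `|t| < 1`, be a holomorphic family of polynomials of any degree (with constant coefficients of
`z ^ d` and `z ^ (d - 1)`) in which no critical point escapes, and let `λ` be the multiplier of a
repelling cycle. Then

`|λ'(0)| ≤ 2 θ |λ| log |λ|`,

where `θ ≤ 1` is the upper logarithmic density of the filled Julia set of `f 0` at a point of the cycle.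
The Schwarz-Pick lemma gives this with `θ = 1`. Consequences for an arbitrary polynomial `T`: bounds for
the distance from `T` to the polynomials `T + s Q` with an escaping critical point, and to the
translates `T + s` with a captured critical point, by any repelling cycle of `T`.
-/

set_option autoImplicit false

open Filter Topology Polynomial MeasureTheory Metric

namespace Pool.Agent.Results.MP_28f8a1_an.MultiplierSpeed

/-- The polynomial as a self-map of the plane. -/
def map (T : ℂ[X]) : ℂ → ℂ := fun w : ℂ => T.eval w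

/-- The orbit of `z` escapes to infinity. -/
def Escapes (T : ℂ[X]) (z : ℂ) : Prop :=
  Tendsto (fun k : ℕ => ‖(map T)^[k] z‖) atTop atTop

/-- The orbit of `z` is attracted by a sink (attracting periodic point) of `T`. -/
def Attracted (T : ℂ[X]) (z : ℂ) : Prop :=
  ∃ n : ℕ, 0 < n ∧ ∃ x : ℂ, (map T)^[n] x = x ∧ ‖deriv ((map T)^[n]) x‖ < 1 ∧
    Tendsto (fun k : ℕ => (map T)^[n * k] z) atTop (𝓝 x)

/-- The point `z` belongs to the basin of a parabolic cycle of `T`. -/
def InParabolicBasin (T : ℂ[X]) (z : ℂ) : Prop :=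
  ∃ (n : ℕ) (x : ℂ), 0 < n ∧ (map T)^[n] x = x ∧ deriv ((map T)^[n]) x = 1 ∧
    Tendsto (fun k : ℕ => (map T)^[n * k] z) atTop (𝓝 x) ∧ ∀ k : ℕ, (map T)^[n * k] z ≠ x

/-- The point `z` is mapped by an iterate of `T` into a disc on which an iterate of `T` is
conjugate to an irrational rotation (a Siegel disc). -/
def InSiegelDisc (T : ℂ[X]) (z : ℂ) : Prop :=
  ∃ (m n : ℕ) (r : ℝ) (h : ℂ → ℂ) (ρ : ℂ), 0 < n ∧ 0 < r ∧ ‖ρ‖ = 1 ∧
    (∀ k : ℕ, 0 < k → ρ ^ k ≠ 1) ∧ DifferentiableOn ℂ h (ball 0 r) ∧ Set.InjOn h (ball 0 r) ∧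
    (∀ w ∈ ball (0 : ℂ) r, (map T)^[n] (h w) = h (ρ * w)) ∧ (map T)^[m] z ∈ h '' ball 0 r

/-- The points which are in none of the basins and not mapped into a Siegel disc. By Sullivan's
theorem and the classification of periodic Fatou components this is the Julia set of `T`. -/
def Js (T : ℂ[X]) : Set ℂ :=
  {z : ℂ | ¬ (Escapes T z ∨ Attracted T z ∨ InParabolicBasin T z ∨ InSiegelDisc T z)}

/-- The filled Julia set of `T`: the points which do not escape. -/
def Ks (T : ℂ[X]) : Set ℂ := {z : ℂ | ¬ Escapes T z}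

/-- The derivative of the `p`-th iterate of `T` at `z`; the multiplier if `z` is periodic with period
`p`. -/
noncomputable def mult (T : ℂ[X]) (p : ℕ) (z : ℂ) : ℂ := deriv (map T)^[p] z

/-- `|x| log |x|` -/
noncomputable def ent (x : ℂ) : ℝ := ‖x‖ * Real.log ‖x‖

/-- The share of `E` in the annulus `ε ≤ |z - a| < 1`, for the measure `|z - a| ^ (-2) dA`, for which
the annulus has the mass `2 π log (1 / ε)`. -/
noncomputable def share (E : Set ℂ) (a : ℂ) (ε : ℝ) : ℝ :=
  (∫ z in E ∩ (ball a 1 \ ball a ε), (‖z - a‖ ^ 2)⁻¹) / (2 * Real.pi * Real.log (1 / ε))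

/-- The upper logarithmic density of `E` at `a`. -/
noncomputable def density (E : Set ℂ) (a : ℂ) : ℝ := limsup (share E a) (𝓝[>] 0)

theorem Js_eq (T : ℂ[X]) : Js T = Pool.Agent.H713R5.QJ.JS T := by
  ext z
  have : (Pool.Agent.H713R5.QJ.Good (Pool.Agent.H713R5.QJ.ev T) z ∨
      Pool.Agent.H713R5.QJ.Para (Pool.Agent.H713R5.QJ.ev T) z ∨
      Pool.Agent.H713R5.QJ.Sieg (Pool.Agent.H713R5.QJ.ev T) z) ↔
      (Escapes T z ∨ Attracted T z ∨ InParabolicBasin T z ∨ InSiegelDisc T z) :=
    or_assoc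
  exact (not_congr this).symm

/-- The multipliers of the repelling cycles against the logarithmic density of the (filled) Julia set:
(1) holomorphic families without escaping critical points, (2) the distance to escape in all
directions, (3) the distance to capture. -/
theorem result :
    -- the density is between 0 and 1
    (∀ (E : Set ℂ) (a : ℂ), 0 ≤ density E a ∧ density E a ≤ 1) ∧
    -- (1) holomorphic families without escaping critical points
    (∀ (d : ℕ) (f : ℂ → ℂ[X]), 2 ≤ d →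
      (∀ t ∈ ball (0 : ℂ) 1, (f t).natDegree = d ∧ (f t).leadingCoeff = (f 0).leadingCoeff ∧
        (f t).coeff (d - 1) = (f 0).coeff (d - 1)) →
      (∀ j : ℕ, DifferentiableOn ℂ (fun t => (f t).coeff j) (ball 0 1)) →
      (∀ t ∈ ball (0 : ℂ) 1, ∀ c : ℂ, (derivative (f t)).eval c = 0 → ¬ Escapes (f t) c) →
      ∀ p : ℕ, 0 < p → ∀ α : ℂ → ℂ, DifferentiableAt ℂ α 0 →
      (∀ᶠ t in 𝓝 (0 : ℂ), (map (f t))^[p] (α t) = α t) → 1 < ‖mult (f 0) p (α 0)‖ →
      ‖deriv (fun t => mult (f t) p (α t)) 0‖ ≤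
        2 * density (Ks (f 0)) (α 0) * ent (mult (f 0) p (α 0))) ∧
    -- (2) multipliers and escape, for all polynomials and all directions `Q`
    (∀ T Q : ℂ[X], 2 ≤ T.natDegree → Q.natDegree + 2 ≤ T.natDegree →
      ∀ p : ℕ, 0 < p → ∀ α : ℂ → ℂ, DifferentiableAt ℂ α 0 →
      (∀ᶠ s in 𝓝 (0 : ℂ), (map (T + C s * Q))^[p] (α s) = α s) → 1 < ‖mult T p (α 0)‖ →
      ∀ ε : ℝ, 0 < ε → 2 * density (Ks T) (α 0) * ent (mult T p (α 0)) <
        ‖deriv (fun s => mult (T + C s * Q) p (α s)) 0‖ * ε →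
      ∃ s : ℂ, ‖s‖ < ε ∧ ∃ c : ℂ, (derivative (T + C s * Q)).eval c = 0 ∧
        Escapes (T + C s * Q) c) ∧
    -- (3) multipliers and capture, for all polynomials
    (∀ T : ℂ[X], 2 ≤ T.natDegree → ∀ p : ℕ, 0 < p → ∀ α : ℂ → ℂ, DifferentiableAt ℂ α 0 →
      (∀ᶠ s in 𝓝 (0 : ℂ), (map (T + C s))^[p] (α s) = α s) → 1 < ‖mult T p (α 0)‖ →
      ∀ ε : ℝ, 0 < ε → 2 * density (Js T) (α 0) * ent (mult T p (α 0)) <
        ‖deriv (fun s => mult (T + C s) p (α s)) 0‖ * ε →
      ∃ s : ℂ, ‖s‖ < ε ∧ ∃ c : ℂ, (derivative T).eval c = 0 ∧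
        (Escapes (T + C s) c ∨ Attracted (T + C s) c)) := by
  refine ⟨fun E a => ⟨Pool.Agent.H46TP.upDens_nonneg E a, Pool.Agent.H46TP.upDens_le_one E a⟩,
    ?_, ?_, ?_⟩
  · intro d f hd hf hhol hnon p hp α hα hper hl
    obtain ⟨m, rfl⟩ : ∃ m, d = m + 1 := ⟨d - 1, by omega⟩
    have h0mem : (0 : ℂ) ∈ ball (0 : ℂ) 1 := mem_ball_self one_pos
    have hm : 1 ≤ m := by omega
    have hlead : ∀ t ∈ ball (0 : ℂ) 1, (f t).coeff (m + 1) = (f 0).leadingCoeff := by
      intro t ht
      obtain ⟨e1, e2, -⟩ := hf t ht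
      rw [← e2, ← coeff_natDegree, e1]
    have ha : (f 0).leadingCoeff ≠ 0 := by
      rw [leadingCoeff_ne_zero]
      intro h
      have := (hf 0 h0mem).1
      rw [h, natDegree_zero] at this
      omega
    exact Pool.Agent.H51MS.family_mult hm ha (f := f) (fun t ht => (hf t ht).1.le) hlead
      (fun t ht => (hf t ht).2.2) hhol (fun t ht c hc => hnon t ht c hc) hp hα hper hl
  · intro T Q hT hQ p hp α hα hper hl ε hε hlt
    by_contra hcon
    push Not at hcon
    have h1 := Pool.Agent.H51MS.mult_escape hT hQ hp hα hper hl hε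
      (fun s hs c hc => hcon s hs c hc)
    exact absurd hlt (not_lt.mpr h1)
  · intro T hT p hp α hα hper hl ε hε hlt
    by_contra hcon
    push Not at hcon
    have h1 := Pool.Agent.H51MS.mult_capture hT hp hα hper hl hε
      (fun s hs c hc h => by
        rcases h with h | ⟨n, hn, x, h2, h3, h4⟩
        · exact (hcon s hs c hc).1 h
        · exact (hcon s hs c hc).2 ⟨n, hn, x, h2, h3, h4⟩)
    rw [← Js_eq] at h1
    exact absurd hlt (not_lt.mpr h1)

end Pool.Agent.Results.MP_28f8a1_an.MultiplierSpeed
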